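import Pool.Agent.H34.L.Y352.KSR.Tail

/-!
# The law of large numbers with exponential tails
-/

set_option autoImplicit false

open Finset Filter Topology
open scoped Classical

namespace Pool.Agent.Y352.KSR

open Pool.Agent.TH161 Pool.Agent.TH161.LW Pool.Agent.TH161.KS
open Pool.Agent.TH921.KS_LLN hiding ev_zero

/-- exponential tails for sums of gaps -/
lemma gap_exp0 {M n : ℕ} (hn : n ≤ M) {i m : ℕ} (hm : m + i ≤ n + 1) {e : ℝ} (he : 0 < e) :
    (((powersetCard n (range M)).filter fun t => e * KK n M ≤ |dv n M i (m + i) t|).card : ℝ) ≤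
      2 * Real.exp (-(e ^ 2 / (4 * (m + e)))) * (M.choose n : ℝ) := by
  have hK : 0 < KK n M := KK_pos
  have hC : (0 : ℝ) ≤ (M.choose n : ℝ) := Nat.cast_nonneg _
  have hempty : (∀ t ∈ powersetCard n (range M), dv n M i (m + i) t = 0) →
      (((powersetCard n (range M)).filter fun t => e * KK n M ≤ |dv n M i (m + i) t|).card : ℝ) ≤
      2 * Real.exp (-(e ^ 2 / (4 * (m + e)))) * (M.choose n : ℝ) := by
    intro h
    have h1 : ((powersetCard n (range M)).filter fun t => e * KK n M ≤ |dv n M i (m + i) t|) = ∅ := by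
      rw [filter_eq_empty_iff]
      intro t ht h2
      rw [h t ht, abs_zero] at h2
      have : 0 < e * KK n M := mul_pos he hK
      linarith
    rw [h1, card_empty]
    push_cast
    positivity
  rcases Nat.eq_zero_or_pos m with hm0 | hm0
  · subst hm0
    refine hempty fun t _ => ?_
    unfold dv
    simp
  rcases Nat.lt_or_ge n m with hmn | hmn
  · obtain rfl : i = 0 := by omega
    obtain rfl : m = n + 1 := by omega
    refine hempty fun t ht => ?_
    unfold dv KK
    have h2 := (mem_pc ht).2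
    rw [add_zero, ev_zero, ev_last h2]
    have : (0 : ℝ) < (n : ℝ) + 1 := by positivity
    push_cast
    field_simp
    ring
  · have h1 := exch_card M n i m hm (fun x => e * KK n M ≤ |(x : ℝ) - m * KK n M|)
    have h2 : ((powersetCard n (range M)).filter fun t => e * KK n M ≤ |dv n M i (m + i) t|) =
        ((powersetCard n (range M)).filter fun t =>
          e * KK n M ≤ |((ev t M (m + i) - ev t M i : ℤ) : ℝ) - m * KK n M|) := by
      refine filter_congr fun t _ => ?_
      unfold dv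
      push_cast
      rw [add_sub_cancel_right]
    rw [h2, h1]
    have hl := low_tail hn hm0 hmn he
    have hh := high_tail hn hm0 hmn he
    have hsub : ((powersetCard n (range M)).filter fun t =>
        e * KK n M ≤ |((ev t M m + 1 : ℤ) : ℝ) - m * KK n M|) ⊆
        ((powersetCard n (range M)).filter fun t =>
          ((ev t M m + 1 : ℤ) : ℝ) ≤ ((m : ℝ) - e) * (((M : ℝ) + 1) / ((n : ℝ) + 1))) ∪
        ((powersetCard n (range M)).filter fun t =>
          ((m : ℝ) + e) * (((M : ℝ) + 1) / ((n : ℝ) + 1)) ≤ ((ev t M m + 1 : ℤ) : ℝ)) := by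
      intro t ht
      obtain ⟨h3, h4⟩ := mem_filter.mp ht
      rw [mem_union, mem_filter, mem_filter]
      have e1 : ((M : ℝ) + 1) / ((n : ℝ) + 1) = KK n M := rfl
      rw [e1]
      rcases le_abs'.mp h4 with h | h
      · left
        refine ⟨h3, ?_⟩
        have : ((m : ℝ) - e) * KK n M = m * KK n M - e * KK n M := by ring
        rw [this]
        linarith
      · right
        refine ⟨h3, ?_⟩
        have : ((m : ℝ) + e) * KK n M = m * KK n M + e * KK n M := by ring
        rw [this]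
        linarith
    have h5 : (((powersetCard n (range M)).filter fun t =>
        e * KK n M ≤ |((ev t M m + 1 : ℤ) : ℝ) - m * KK n M|).card : ℝ) ≤
        (((powersetCard n (range M)).filter fun t =>
          ((ev t M m + 1 : ℤ) : ℝ) ≤ ((m : ℝ) - e) * (((M : ℝ) + 1) / ((n : ℝ) + 1))).card : ℝ) +
        (((powersetCard n (range M)).filter fun t =>
          ((m : ℝ) + e) * (((M : ℝ) + 1) / ((n : ℝ) + 1)) ≤ ((ev t M m + 1 : ℤ) : ℝ)).card : ℝ) := by
      exact_mod_cast (card_le_card hsub).trans (card_union_le _ _)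
    have hm0' : (0 : ℝ) < m := by exact_mod_cast hm0
    have h6 : Real.exp (-(e ^ 2 / (4 * m))) ≤ Real.exp (-(e ^ 2 / (4 * (m + e)))) := by
      refine Real.exp_le_exp.mpr (neg_le_neg ?_)
      refine div_le_div_of_nonneg_left (by positivity) (by positivity) ?_
      linarith
    have h7 := mul_le_mul_of_nonneg_right h6 hC
    linarith

lemma gap_exp {M n : ℕ} (hn : n ≤ M) {i j : ℕ} (hi : i ≤ n + 1) (hj : j ≤ n + 1) {e : ℝ}
    (he : 0 < e) :
    (((powersetCard n (range M)).filter fun t => e * KK n M ≤ |dv n M i j t|).card : ℝ) ≤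
      2 * Real.exp (-(e ^ 2 / (4 * (|(j : ℝ) - i| + e)))) * (M.choose n : ℝ) := by
  rcases le_total i j with h | h
  · obtain ⟨m, rfl⟩ : ∃ m, j = m + i := ⟨j - i, by omega⟩
    have h1 := gap_exp0 hn hj he
    have h2 : |((m + i : ℕ) : ℝ) - i| = m := by
      push_cast
      rw [add_sub_cancel_right, Nat.abs_cast]
    rw [h2]
    exact h1
  · obtain ⟨m, rfl⟩ : ∃ m, i = m + j := ⟨i - j, by omega⟩
    have h1 := gap_exp0 hn hi he
    have h2 : |(j : ℝ) - ((m + j : ℕ) : ℝ)| = m := by
      push_cast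
      rw [sub_add_cancel_right, abs_neg, Nat.abs_cast]
    rw [h2]
    refine le_trans (le_of_eq ?_) h1
    congr 2
    refine filter_congr fun t _ => ?_
    have h3 : dv n M (m + j) j t = -dv n M j (m + j) t := by
      unfold dv
      ring
    rw [h3, abs_neg]

section maps

variable {α : Type} [Fintype α]

/-- the law of large numbers for a fixed linear order -/
lemma event_exp {M : ℕ} (hn : Fintype.card α ≤ M) (σ : α ≃ Fin (Fintype.card α)) (y : α) (v : ℤ)
    {e : ℝ} (he : 2 ≤ e) :
    (((powersetCard (Fintype.card α) (range M)).filter fun t => 0 ≤ (fm σ t y : ℤ) + v ∧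
      (fm σ t y : ℤ) + v < M ∧ e ≤ |(KS.cnt (fm σ t) y v : ℝ) - v / unit α M|).card : ℝ) ≤
      4 * Real.exp (-(e ^ 2 / (32 * (|(v : ℝ)| / unit α M + e + 1)))) *
        (M.choose (Fintype.card α) : ℝ) := by
  rw [unit_eq]
  set K := KK (Fintype.card α) M with hK
  have hK0 : 0 < K := KK_pos
  obtain ⟨V, hV⟩ : ∃ V : ℝ, V = (v : ℝ) / K := ⟨_, rfl⟩
  have hVK : V * K = v := by rw [hV]; field_simp
  have hVa : |(v : ℝ)| / K = |V| := by rw [hV, abs_div, abs_of_pos hK0]
  set κ : ℕ := (σ y : ℕ) + 1 with hκ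
  have hκn : κ ≤ (Fintype.card α) := (σ y).2
  set j : ℕ := min ⌈(κ : ℝ) + V + e⌉₊ ((Fintype.card α) + 1) with hj
  set i : ℕ := min (⌊(κ : ℝ) + V - e⌋₊ + 1) ((Fintype.card α) + 1) with hi
  have hV1 := le_abs_self V
  have hV2 := neg_abs_le V
  have hV0 := abs_nonneg V
  have hκ0 : (0 : ℝ) ≤ κ := Nat.cast_nonneg _
  have hκn' : (κ : ℝ) ≤ (Fintype.card α) := by exact_mod_cast hκn
  have hn0 : (0 : ℝ) ≤ (Fintype.card α) := Nat.cast_nonneg _
  -- the indices are close
  have bj : |(j : ℝ) - κ| ≤ |V| + e + 1 := by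
    have h1 : (κ : ℝ) + V + e ≤ (⌈(κ : ℝ) + V + e⌉₊ : ℝ) := Nat.le_ceil _
    have h2 : (⌈(κ : ℝ) + V + e⌉₊ : ℝ) ≤ max ((κ : ℝ) + V + e + 1) 0 := by
      rcases le_or_gt 0 ((κ : ℝ) + V + e) with h | h
      · exact (Nat.ceil_lt_add_one h).le.trans (le_max_left _ _)
      · rw [Nat.ceil_eq_zero.mpr h.le]
        simp
    have h3 : (j : ℝ) = min (⌈(κ : ℝ) + V + e⌉₊ : ℝ) (((Fintype.card α) : ℝ) + 1) := by rw [hj]; push_cast; rfl
    rw [abs_le]
    constructor
    · rw [h3]
      rcases min_cases (⌈(κ : ℝ) + V + e⌉₊ : ℝ) (((Fintype.card α) : ℝ) + 1) with ⟨h, _⟩ | ⟨h, _⟩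
      · rw [h]; linarith
      · rw [h]; linarith
    · have h4 : (j : ℝ) ≤ max ((κ : ℝ) + V + e + 1) 0 := by
        rw [h3]; exact (min_le_left _ _).trans h2
      rcases max_cases ((κ : ℝ) + V + e + 1) 0 with ⟨h, _⟩ | ⟨h, _⟩
      · rw [h] at h4; linarith
      · rw [h] at h4; linarith
  have bi : |(i : ℝ) - κ| ≤ |V| + e + 1 := by
    have h1 : (κ : ℝ) + V - e < (⌊(κ : ℝ) + V - e⌋₊ : ℝ) + 1 := Nat.lt_floor_add_one _
    have h2 : (⌊(κ : ℝ) + V - e⌋₊ : ℝ) ≤ max ((κ : ℝ) + V - e) 0 := by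
      rcases le_or_gt 0 ((κ : ℝ) + V - e) with h | h
      · exact (Nat.floor_le h).trans (le_max_left _ _)
      · rw [Nat.floor_of_nonpos h.le]
        simp
    have h3 : (i : ℝ) = min ((⌊(κ : ℝ) + V - e⌋₊ : ℝ) + 1) (((Fintype.card α) : ℝ) + 1) := by rw [hi]; push_cast; rfl
    rw [abs_le]
    constructor
    · rw [h3]
      rcases min_cases ((⌊(κ : ℝ) + V - e⌋₊ : ℝ) + 1) (((Fintype.card α) : ℝ) + 1) with ⟨h, _⟩ | ⟨h, _⟩
      · rw [h]; linarith
      · rw [h]; linarith
    · have h4 : (i : ℝ) ≤ max ((κ : ℝ) + V - e) 0 + 1 := by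
        rw [h3]; exact (min_le_left _ _).trans (by linarith)
      rcases max_cases ((κ : ℝ) + V - e) 0 with ⟨h, _⟩ | ⟨h, _⟩
      · rw [h] at h4; linarith
      · rw [h] at h4; linarith
  have hj1 : j ≤ (Fintype.card α) + 1 := min_le_right _ _
  have hi1 : i ≤ (Fintype.card α) + 1 := min_le_right _ _
  have hκ1 : κ ≤ (Fintype.card α) + 1 := by omega
  have e0 : 0 < e := by linarith
  have cA := gap_exp hn hκ1 hj1 e0
  have cB := gap_exp hn hκ1 hi1 (half_pos e0)
  have hsub : ((powersetCard (Fintype.card α) (range M)).filter fun t => 0 ≤ (fm σ t y : ℤ) + v ∧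
      (fm σ t y : ℤ) + v < M ∧ e ≤ |(KS.cnt (fm σ t) y v : ℝ) - v / K|) ⊆
      ((powersetCard (Fintype.card α) (range M)).filter fun t => e * KK (Fintype.card α) M ≤ |dv (Fintype.card α) M κ j t|) ∪
      ((powersetCard (Fintype.card α) (range M)).filter fun t => e / 2 * KK (Fintype.card α) M ≤ |dv (Fintype.card α) M κ i t|) := by
    intro t ht
    obtain ⟨htm, h0, hM, hev⟩ := mem_filter.mp ht
    have ht2 : t.card = (Fintype.card α) := (mem_powersetCard.mp htm).2
    rw [cnt_fm ht2] at hev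
    set T : ℤ := (fm σ t y : ℤ) with hT
    set cc : ℕ := (t.filter fun a : ℕ => (a : ℤ) ≤ T + v).card with hcc
    have hccn : cc ≤ (Fintype.card α) := by rw [← ht2]; exact card_le_card (filter_subset _ _)
    have hTe : ev t M κ = T := ev_fm ht2 M σ y
    have hcast : (((cc : ℤ) - ((σ y : ℕ) + 1) : ℤ) : ℝ) = (cc : ℝ) - κ := by
      rw [hκ]; push_cast; ring
    rw [hcast, ← hV] at hev
    rw [mem_union, mem_filter, mem_filter]
    rcases le_abs'.mp hev with h | h
    · -- few elements
      right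
      refine ⟨htm, ?_⟩
      have hx : (cc : ℝ) ≤ (κ : ℝ) + V - e := by
        have : (cc : ℝ) - κ - V ≤ -e := h
        linarith
      have hx0 : 0 ≤ (κ : ℝ) + V - e := le_trans (Nat.cast_nonneg _) hx
      have hfl : cc ≤ ⌊(κ : ℝ) + V - e⌋₊ := Nat.le_floor hx
      have hevi : T + v < ev t M i := by
        rcases le_or_gt (⌊(κ : ℝ) + V - e⌋₊ + 1) (Fintype.card α) with h2 | h2
        · have hie : i = ⌊(κ : ℝ) + V - e⌋₊ + 1 := by rw [hi]; omega
          by_contra hc
          have h3 := (ev_le_iff ht2 M i (by omega) (by omega) (T + v)).mp (not_lt.mp hc)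
          omega
        · have hie : i = (Fintype.card α) + 1 := by rw [hi]; omega
          rw [hie, ev_last ht2]
          exact hM
      have hi2 : (i : ℝ) ≤ (κ : ℝ) + V - e + 1 := by
        have h3 : (i : ℝ) ≤ (⌊(κ : ℝ) + V - e⌋₊ : ℝ) + 1 := by
          have : i ≤ ⌊(κ : ℝ) + V - e⌋₊ + 1 := min_le_left _ _
          exact_mod_cast this
        have h4 := Nat.floor_le hx0
        linarith
      have h5 : (T : ℝ) + v < (ev t M i : ℝ) := by exact_mod_cast hevi
      have h6 : dv (Fintype.card α) M κ i t = (ev t M i : ℝ) - T - ((i : ℝ) - κ) * K := by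
        unfold dv
        rw [hTe]
      have h7 : ((i : ℝ) - κ) * K ≤ (V - e + 1) * K := mul_le_mul_of_nonneg_right (by linarith) hK0.le
      have h8 : (V - e + 1) * K = v - (e - 1) * K := by
        calc (V - e + 1) * K = V * K - (e - 1) * K := by ring
          _ = _ := by rw [hVK]
      have h9 : e / 2 * K ≤ (e - 1) * K := mul_le_mul_of_nonneg_right (by linarith) hK0.le
      refine le_trans ?_ (le_abs_self _)
      rw [h6]
      show e / 2 * K ≤ _
      linarith
    · -- many elements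
      left
      refine ⟨htm, ?_⟩
      have hx : (κ : ℝ) + V + e ≤ (cc : ℝ) := by
        have : e ≤ (cc : ℝ) - κ - V := h
        linarith
      have hce : ⌈(κ : ℝ) + V + e⌉₊ ≤ cc := Nat.ceil_le.mpr hx
      have hje : j = ⌈(κ : ℝ) + V + e⌉₊ := by rw [hj]; omega
      have hevj : ev t M j ≤ T + v := by
        rcases Nat.eq_zero_or_pos j with h2 | h2
        · rw [h2, ev_zero]
          omega
        · exact (ev_le_iff ht2 M j h2 (by omega) (T + v)).mpr (by omega)
      have hj2 : (κ : ℝ) + V + e ≤ (j : ℝ) := by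
        rw [hje]; exact Nat.le_ceil _
      have h5 : (ev t M j : ℝ) ≤ (T : ℝ) + v := by exact_mod_cast hevj
      have h6 : dv (Fintype.card α) M κ j t = (ev t M j : ℝ) - T - ((j : ℝ) - κ) * K := by
        unfold dv
        rw [hTe]
      have h7 : (V + e) * K ≤ ((j : ℝ) - κ) * K := mul_le_mul_of_nonneg_right (by linarith) hK0.le
      have h8 : (V + e) * K = v + e * K := by
        calc (V + e) * K = V * K + e * K := by ring
          _ = _ := by rw [hVK]
      refine le_trans ?_ (neg_le_abs _)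
      rw [h6]
      show e * K ≤ _
      linarith
  have h1 : (((powersetCard (Fintype.card α) (range M)).filter fun t => 0 ≤ (fm σ t y : ℤ) + v ∧
      (fm σ t y : ℤ) + v < M ∧ e ≤ |(KS.cnt (fm σ t) y v : ℝ) - v / K|).card : ℝ) ≤
      (((powersetCard (Fintype.card α) (range M)).filter fun t => e * KK (Fintype.card α) M ≤ |dv (Fintype.card α) M κ j t|).card : ℝ) +
      (((powersetCard (Fintype.card α) (range M)).filter fun t => e / 2 * KK (Fintype.card α) M ≤ |dv (Fintype.card α) M κ i t|).card : ℝ) := by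
    have := (card_le_card hsub).trans (card_union_le _ _)
    exact_mod_cast this
  have hC : (0 : ℝ) ≤ (M.choose (Fintype.card α) : ℝ) := Nat.cast_nonneg _
  have h2 : 2 * Real.exp (-(e ^ 2 / (4 * (|(j : ℝ) - κ| + e)))) ≤
      2 * Real.exp (-(e ^ 2 / (32 * (|V| + e + 1)))) := by
    refine mul_le_mul_of_nonneg_left (Real.exp_le_exp.mpr (neg_le_neg ?_)) (by norm_num)
    refine div_le_div_of_nonneg_left (by positivity) (by positivity) ?_
    linarith
  have h3 : 2 * Real.exp (-((e / 2) ^ 2 / (4 * (|(i : ℝ) - κ| + e / 2)))) ≤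
      2 * Real.exp (-(e ^ 2 / (32 * (|V| + e + 1)))) := by
    refine mul_le_mul_of_nonneg_left (Real.exp_le_exp.mpr (neg_le_neg ?_)) (by norm_num)
    have h4 : (e / 2) ^ 2 / (4 * (|(i : ℝ) - κ| + e / 2)) =
        e ^ 2 / (16 * (|(i : ℝ) - κ| + e / 2)) := by
      have h5 : 0 < |(i : ℝ) - κ| + e / 2 := by positivity
      field_simp
      ring
    rw [h4]
    refine div_le_div_of_nonneg_left (by positivity) (by positivity) ?_
    linarith
  rw [hVa]
  have h4 := mul_le_mul_of_nonneg_right h2 hC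
  have h5 := mul_le_mul_of_nonneg_right h3 hC
  linarith

end maps

section sums

variable {α : Type} [Fintype α] [PartialOrder α]

lemma ev_ninj' {κ : ℝ} (hκ : 0 < κ) : ∀ᶠ M : ℕ in atTop,
    (((Om α M).filter fun f => ¬ Function.Injective f).card : ℝ) ≤ κ * (Om α M).card := by
  have hf : (0 : ℝ) < 1 / (Fintype.card α).factorial := by positivity
  have he : (0 : ℝ) < eN α := by exact_mod_cast Pool.Agent.TH921.KS_LLN.eN_pos α
  have h1 := (tendsto_noninj (α := α)).div (tendsto_Om (α := α)) (mul_pos he hf).ne'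
  rw [zero_div] at h1
  filter_upwards [h1.eventually (gt_mem_nhds hκ), ev_pos_Om (α := α), eventually_gt_atTop 0]
    with M hM hO hM0
  have hO' : (0 : ℝ) < ((Om α M).card : ℝ) := by exact_mod_cast hO
  have hM0' : (0 : ℝ) < (M : ℝ) := by exact_mod_cast hM0
  simp only [Pi.div_apply] at hM
  rw [div_div_div_cancel_right₀ (by positivity), div_lt_iff₀ hO'] at hM
  exact hM.le

/-- the law of large numbers with exponential tails -/
def LLNx (α : Type) [Fintype α] [PartialOrder α] (M : ℕ) (κ : ℝ) : Prop :=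
  ∀ (y : α) (v : ℤ) (e : ℝ), 2 ≤ e →
    pr α M (fun f => 0 ≤ (f y : ℤ) + v ∧ (f y : ℤ) + v < M ∧
      e ≤ |(KS.cnt f y v : ℝ) - v / unit α M|) ≤
      4 * Real.exp (-(e ^ 2 / (32 * (|(v : ℝ)| / unit α M + e + 1)))) + κ

theorem lln_exp (α : Type) [Fintype α] [PartialOrder α] {κ : ℝ} (hκ : 0 < κ) :
    ∀ᶠ M : ℕ in atTop, LLNx α M κ := by
  filter_upwards [ev_pos_Om (α := α), ev_ninj' (α := α) hκ, eventually_ge_atTop (Fintype.card α)]
    with M hO hni hn
  have hO' : (0 : ℝ) < ((Om α M).card : ℝ) := by exact_mod_cast hO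
  set N : ℝ := ((Om α M).card : ℝ) with hN
  have hK0 : 0 < unit α M := KK_pos
  have hinjN : ∑ σ ∈ univ.filter (fun σ : α ≃ Fin (Fintype.card α) => StrictMono ⇑σ),
      (M.choose (Fintype.card α) : ℝ) ≤ N := by
    have h1 := sum_inj (α := α) (fun _ => (1 : ℝ)) M
    simp only [sum_const, card_powersetCard, card_range, nsmul_eq_mul, mul_one] at h1
    rw [sum_const, nsmul_eq_mul, ← h1, hN]
    exact_mod_cast card_le_card (filter_subset _ _)
  intro y v e he
  obtain ⟨W, hW⟩ : ∃ W : ℝ, W = 4 * Real.exp (-(e ^ 2 / (32 * (|(v : ℝ)| / unit α M + e + 1)))) :=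
    ⟨_, rfl⟩
  have hW0 : 0 ≤ W := by rw [hW]; positivity
  suffices key : ∀ p : (α → ℕ) → Prop, (∀ f, p f ↔ (0 ≤ (f y : ℤ) + v ∧ (f y : ℤ) + v < M ∧
      e ≤ |(KS.cnt f y v : ℝ) - v / unit α M|)) → pr α M p ≤ W + κ by
    rw [← hW]
    exact key _ fun _ => Iff.rfl
  intro p hp
  have hpr : pr α M p = (((Om α M).filter p).card : ℝ) / N := rfl
  have h3 : (((Om α M).filter p).card : ℝ) ≤
      (((Om α M).filter fun f => Function.Injective f ∧ p f).card : ℝ) +
      (((Om α M).filter fun f => ¬ Function.Injective f).card : ℝ) := by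
    have h4 : (Om α M).filter p ⊆ ((Om α M).filter fun f => Function.Injective f ∧ p f) ∪
        ((Om α M).filter fun f => ¬ Function.Injective f) := by
      intro f hf
      obtain ⟨h5, h6⟩ := mem_filter.mp hf
      rw [mem_union, mem_filter, mem_filter]
      by_cases h7 : Function.Injective f
      · exact Or.inl ⟨h5, h7, h6⟩
      · exact Or.inr ⟨h5, h7⟩
    exact_mod_cast (card_le_card h4).trans (card_union_le _ _)
  have h4 : (((Om α M).filter fun f => Function.Injective f ∧ p f).card : ℝ) ≤ W * N := by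
    rw [card_filter_sum]
    calc ∑ σ ∈ univ.filter (fun σ : α ≃ Fin (Fintype.card α) => StrictMono ⇑σ),
          (((powersetCard (Fintype.card α) (range M)).filter fun t => p (fm σ t)).card : ℝ) ≤
        ∑ σ ∈ univ.filter (fun σ : α ≃ Fin (Fintype.card α) => StrictMono ⇑σ),
          W * (M.choose (Fintype.card α) : ℝ) :=
          sum_le_sum fun σ _ => by
            have h9 := event_exp hn σ y v he
            simp only [← hp] at h9
            rw [← hW] at h9
            convert h9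
      _ = W * ∑ σ ∈ univ.filter (fun σ : α ≃ Fin (Fintype.card α) => StrictMono ⇑σ),
          (M.choose (Fintype.card α) : ℝ) := by rw [mul_sum]
      _ ≤ W * N := by gcongr
  rw [hpr, div_le_iff₀ hO']
  calc (((Om α M).filter p).card : ℝ) ≤ W * N + κ * N := by linarith
    _ = (W + κ) * N := by ring

end sums

end Pool.Agent.Y352.KSR
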