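import Pool.Agent.H34.L.TH161.KS.Fin
import Pool.Agent.H34.L.Y352.KSR.Lln
import Pool.Agent.H34.L.Y352.KSR.Par

/-!
# The final contradiction at one scale, with an explicit scale
-/

set_option autoImplicit false
set_option linter.unusedSectionVars false

open Finset Filter Topology
open scoped Classical

namespace Pool.Agent.Y352.KSR

open Pool.Agent.TH161.LW Pool.Agent.TH161.KS

variable {α : Type} [Fintype α] [PartialOrder α] {M : ℕ}

/-- the law of large numbers at interior points -/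
lemma lln_bad' {y : α} {v : ℤ} {e B β κ : ℝ} (hX : LLNx α M κ) (he : 2 ≤ e)
    (hR : Rng α M y B β) (hv : |(v : ℝ)| ≤ B * unit α M) :
    pr α M (fun f => ¬ (|(cnt f y v : ℝ) - v / unit α M| < e)) ≤
      4 * Real.exp (-(e ^ 2 / (32 * (|(v : ℝ)| / unit α M + e + 1)))) + κ + β := by
  refine (pr_le_add (q := fun f => 0 ≤ (f y : ℤ) + v ∧ (f y : ℤ) + v < M ∧
      e ≤ |(cnt f y v : ℝ) - v / unit α M|)
    (r := fun f => (f y : ℝ) < B * unit α M ∨ (M : ℝ) ≤ f y + B * unit α M) ?_).trans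
    (add_le_add (hX y v e he) hR)
  intro f _ hf
  rw [not_lt] at hf
  by_cases h1 : 0 ≤ (f y : ℤ) + v
  · by_cases h2 : (f y : ℤ) + v < M
    · exact Or.inl ⟨h1, h2, hf⟩
    · right; right
      rw [not_lt] at h2
      have h3 : (M : ℝ) ≤ (f y : ℝ) + v := by exact_mod_cast h2
      have h4 := le_abs_self (v : ℝ)
      linarith
  · right; left
    rw [not_le] at h1
    have h3 : (f y : ℝ) + v < 0 := by exact_mod_cast h1
    have h4 := neg_le_abs (v : ℝ)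
    linarith

/-- the law of large numbers used for rails -/
lemma lln_rail' {L N R T κ : ℝ} {y : α} (hX : LLNx α M κ) (hL : 1 ≤ L) (hN : 1 ≤ N)
    (hR : 1 ≤ R) (hT : 0 < T) (hRng : Rng α M y (2 * L * R) (1 / (8 * T)))
    (r8 : 4 * Real.exp (-(R / (2 ^ 19 * N ^ 2 * (L + 2)))) ≤ 1 / (8 * T)) (hκ : κ ≤ 1 / (8 * T))
    (r9 : 256 * N ≤ R) {v : ℤ} (hv : |(v : ℝ)| / unit α M ≤ L * R) :
    pr α M (fun f => ¬ (|(cnt f y v : ℝ) - v / unit α M| < R / (128 * N))) ≤ 3 / (8 * T) := by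
  have hK : 0 < unit α M := unit_pos
  have hR0 : 0 < R := by linarith
  have hN0 : 0 < N := by linarith
  have he0 : 0 < R / (128 * N) := by positivity
  have he2 : 2 ≤ R / (128 * N) := by
    rw [le_div_iff₀ (by positivity)]
    linarith
  have h1 := lln_bad' (v := v) hX he2 hRng (by
    rw [div_le_iff₀ hK] at hv
    refine hv.trans (mul_le_mul_of_nonneg_right ?_ hK.le)
    nlinarith)
  refine h1.trans ?_
  have h3 : |(v : ℝ)| / unit α M + R / (128 * N) + 1 ≤ (L + 2) * R := by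
    have h4 : R / (128 * N) ≤ R := div_le_self hR0.le (by linarith)
    nlinarith
  have h3' : 0 ≤ |(v : ℝ)| / unit α M := by positivity
  have h2 : Real.exp (-((R / (128 * N)) ^ 2 / (32 * (|(v : ℝ)| / unit α M + R / (128 * N) + 1)))) ≤
      Real.exp (-(R / (2 ^ 19 * N ^ 2 * (L + 2)))) := by
    refine Real.exp_le_exp.mpr (neg_le_neg ?_)
    have h4 : R / (2 ^ 19 * N ^ 2 * (L + 2)) = (R / (128 * N)) ^ 2 / (32 * ((L + 2) * R)) := by
      have hL2 : 0 < L + 2 := by linarith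
      field_simp
      norm_num
    rw [h4]
    refine div_le_div_of_nonneg_left (by positivity) (by positivity) ?_
    linarith
  have h5 : 3 / (8 * T) = 1 / (8 * T) + 1 / (8 * T) + 1 / (8 * T) := by
    field_simp
    norm_num
  rw [h5]
  linarith

/-- the final step: rails at one scale -/
theorem fin_core' {c C C' c' CD ε L₁ η L N K₀ R T κ : ℝ} {x y₀ : α}
    (hFl : Fl c C) (hVi : Vi c C' c') (hRAIL : P_RAIL) (hGOOD : P_GOOD) (hEND : P_END)
    (hε : 0 < ε) (hε2 : ε ≤ 1 / 2) (hL₁ : 1 ≤ L₁)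
    (hH : R / 8 ≤ ((univ.filter fun z : α => |hh M z - hh M x| ≤ L₁ * R).card : ℝ))
    (hD : ∀ (Z : Finset α) (y : α) (η B : ℝ), CD / ε ^ 2 ≤ η → η ≤ B →
      (∀ z ∈ Z, ∀ z' ∈ Z, z ≠ z' → η ≤ rho M z z') → (∀ z ∈ Z, rho M y z ≤ B) →
      (Z.card : ℝ) ≤ Real.exp (CD * Real.log (B / (η * ε)) ^ 3 / ε ^ 4))
    (hη0 : 0 < η) (hη1 : η < 1) (hL1 : 1 ≤ L) (hL : 12 * C * (L₁ + 2) + 2 ≤ L)
    (hN1 : 1 ≤ N) (hK1 : 1 ≤ K₀)
    (p1 : Real.exp (CD * Real.log (5 * C * L / (η * ε)) ^ 3 / ε ^ 4) ≤ N)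
    (p2 : 544 * C * L * Real.exp (-(1 / (23040 * √η))) ≤ 1 / (128 * N ^ 2))
    (p3 : 16 * C' * L * Real.exp (-(c' * L)) ≤ 1 / (64 * N))
    (p4 : 17 * N * Real.exp (-(K₀ / 18)) ≤ 1 / 16)
    (p5 : (300 / c + 1) * √(3 * K₀ * √η) < ε)
    (hStd : Std α M) (hU : Unb α M ε) (hH1 : H1 α M c R)
    (r1 : 1 / c ≤ R) (r2 : L ≤ R) (r3 : CD / ε ^ 2 ≤ η * R) (r4 : 1 ≤ η * R)
    (r5 : 3000 ≤ √η * R) (r6 : 1 ≤ √(3 * K₀ * √η) * R) (r7 : 1 ≤ c * R / 2)
    (hT : T = ((2 * 16 ^ (2 * ⌈N⌉₊) : ℕ) : ℝ))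
    (hX : LLNx α M κ) (hκ : κ ≤ 1 / (8 * T))
    (r8 : 4 * Real.exp (-(R / (2 ^ 19 * N ^ 2 * (L + 2)))) ≤ 1 / (8 * T)) (r9 : 256 * N ≤ R)
    (hxy : |hh M y₀ - hh M x| ≤ R) (hcR : c * R ≤ tau M x y₀)
    (hRng : ∀ z : α, |hh M z - hh M x| ≤ 2 * L * R →
      Rng α M z (2 * L * R) (1 / (8 * T))) : False := by
  obtain ⟨hc0, hc2, hC1, hF⟩ := id hFl
  have hne := hStd.ne
  have hK : 0 < unit α M := unit_pos
  have hR0 : 0 < R := by linarith
  have hR1 : 1 ≤ R := by linarith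
  have hT0 : 0 < T := by
    rw [hT]
    have : 0 < 2 * 16 ^ (2 * ⌈N⌉₊) := by positivity
    exact_mod_cast this
  have hF1 := (hF α M hStd R r1 hH1).1
  have hLR : R ≤ L * R := le_mul_of_one_le_left hR0.le hL1
  have hL₁L : L₁ + 1 ≤ L := by nlinarith
  obtain ⟨Z, π, y, hZN, hπ', hyZ, hy, hyx⟩ := net_heavy hne hC1 hF1 hH hD hη0 hη1 hL1 hL₁L hL₁ hN1
    hε p1 hR1 r3
  have hyL : |hh M y - hh M x| ≤ L * R :=
    hyx.trans (mul_le_mul_of_nonneg_right hL₁L hR0.le)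
  -- the partner
  obtain ⟨x', hx'1, hx'2⟩ : ∃ x' : α, |hh M x' - hh M x| ≤ R ∧ c * R / 2 ≤ tau M y x' := by
    by_contra hcon
    push Not at hcon
    have h1 := hcon x (by rw [sub_self, abs_zero]; exact hR0.le)
    have h2 := hcon y₀ hxy
    have h3 := tau_tri (M := M) x y y₀
    rw [tau_comm x y] at h3
    linarith
  obtain ⟨q, hq1, hq2⟩ := exists_median hne x' y
  have hqb : |(q : ℝ)| / unit α M ≤ 6 * C * (L₁ + 2) * R := by
    have h1 := median_le x' y q hq1 hq2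
    have h2 : |hh M x' - hh M y| ≤ (L₁ + 2) * R := by
      have h6 : hh M x' - hh M y = (hh M x' - hh M x) - (hh M y - hh M x) := by ring
      rw [h6]
      refine (abs_sub _ _).trans ?_
      linarith
    have h3 : R ≤ (L₁ + 2) * R := le_mul_of_one_le_left hR0.le (by linarith)
    have h4 := rho_le_of_hh hne hC1 hF1 (hR1.trans h3) h2 h3
    linarith
  obtain ⟨d, hd0, hδ1, hδ2⟩ := exists_step hStd.unit_ge r5
  have hδ0 : 0 < (d : ℝ) / unit α M := by linarith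
  obtain ⟨V, U, hVU⟩ := hGOOD c C C' c' hFl hVi α M hStd R r1 hH1 L η N K₀ (√η * R)
    ((d : ℝ) / unit α M) x y Z π (10 * d)
    hL1 r2 hη0 (by linarith) hδ0 hyL hπ' hZN p4 (by linarith) (by
      push_cast
      have h1 : 10 * (d : ℝ) / unit α M = 10 * ((d : ℝ) / unit α M) := by ring
      rw [h1]
      linarith)
  have ht₁ := t₁_le hC1 hL1 hη0 hR0 r4 hδ2 p2
  have ht₁0 : 0 ≤ 544 * C * L * R * Real.exp (-((d : ℝ) / unit α M / (9 * (η * R + 1)))) := by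
    positivity
  have ht₂ := t₂_le hR0 p3
  have h8δ : 8 * ((d : ℝ) / unit α M) ≤ R := by
    have h1 : √η ≤ 1 := by
      rw [Real.sqrt_le_left (by norm_num)]
      linarith
    have h2 : √η * R ≤ 1 * R := mul_le_mul_of_nonneg_right h1 hR0.le
    linarith
  have hBd : ∀ v : ℤ, |(v : ℝ)| / unit α M ≤ L * R →
      pr α M (fun f => ¬ (|(cnt f y v : ℝ) - v / unit α M| < R / (128 * N))) ≤ 3 / (8 * T) :=
    fun v hv => lln_rail' hX hL1 hN1 hR1 hT0 (hRng y (by linarith)) r8 hκ r9 hv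
  have hCL : 6 * C * (L₁ + 2) * R + R ≤ L * R / 2 := by
    have : (12 * C * (L₁ + 2) + 2) * R ≤ L * R := mul_le_mul_of_nonneg_right hL hR0.le
    linarith
  have hv0 : ∀ v : ℤ, (|(v : ℝ)| ≤ |(q : ℝ)| + 8 * d) → |(v : ℝ)| / unit α M ≤ L * R := by
    intro v hv
    have h1 : |(v : ℝ)| / unit α M ≤ (|(q : ℝ)| + 8 * d) / unit α M :=
      div_le_div_of_nonneg_right hv hK.le
    rw [add_div, mul_div_assoc] at h1
    linarith
  have hB : ∀ v : ℤ, v = -(4 * d : ℕ) ∨ v = q ∨ v = -(4 * d : ℕ) + (8 * d : ℕ) ∨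
      v = q + (8 * d : ℕ) →
      pr α M (fun f => ¬ (|(cnt f y v : ℝ) - v / unit α M| < R / (128 * N))) ≤ 3 / (8 * T) := by
    intro v hv
    refine hBd v (hv0 v ?_)
    have hd' : (0 : ℤ) ≤ d := by omega
    have h1 : |v| ≤ |q| + 8 * d := by
      rcases hv with rfl | rfl | rfl | rfl
      · have := abs_nonneg q
        push_cast
        rw [abs_le]
        constructor <;> linarith
      · linarith
      · have := abs_nonneg q
        push_cast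
        rw [abs_le]
        constructor <;> linarith
      · refine (abs_add_le _ _).trans ?_
        push_cast
        rw [abs_of_nonneg (by linarith : (0 : ℤ) ≤ 8 * d)]
    exact_mod_cast h1
  have hZc : Z.card ≤ ⌈N⌉₊ := by
    have h1 : (Z.card : ℝ) ≤ (⌈N⌉₊ : ℝ) := hZN.trans (Nat.le_ceil N)
    exact_mod_cast h1
  have hZne : Z.Nonempty := ⟨y, hyZ⟩
  obtain ⟨g, f, f₀, w, hgf, h0, hw0, l1, l2, l3, l4⟩ := rail_lln hRAIL hne hZne
    (fun j hj => (hVU j hj).1) (fun j hj => (hVU j hj).2.1) hZc hT hB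
  have hmem : ∀ j ∈ Z, ∀ F : α → ℕ, (F = f j ∨ F = g j) → F ∈ V j ∪ U j := by
    intro j hj F hF
    rw [Finset.mem_union]
    rcases hF with rfl | rfl
    · exact Or.inr (hgf j hj).2
    · exact Or.inl (hgf j hj).1
  obtain ⟨z, hzW, hz⟩ := count_main (M := M) (x := x) (π := π) (W := 2 * L * R)
    (e := R / (128 * N)) (a := R / (8 * N)) hd0 h0 hw0 l1 l2 l3 l4 hy
    (fun j hj F hF => ((hVU j hj).2.2.1 F (hmem j hj F hF)).1)
    (fun j hj F hF => ((hVU j hj).2.2.1 F (hmem j hj F hF)).2.1)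
    (by
      intro z hz
      have h1 : L * R ≤ |hh M z - hh M y| := by
        have h2 : hh M z - hh M x = (hh M z - hh M y) + (hh M y - hh M x) := by ring
        have h3 := abs_add_le (hh M z - hh M y) (hh M y - hh M x)
        rw [← h2] at h3
        linarith
      have h2 : |(q : ℝ)| + 8 * d = (|(q : ℝ)| / unit α M + 8 * ((d : ℝ) / unit α M)) *
          unit α M := by
        field_simp
      rw [h2, ← mul_assoc]
      refine mul_le_mul_of_nonneg_right ?_ hK.le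
      linarith)
    (sum_lt hN1 hR0 hZN ht₁0 ht₁ ht₂)
  -- the net point of `z`
  have hz₀ := (hπ' z hzW).1
  obtain ⟨a1, a2, a3, a4⟩ := hz (π z) hz₀
  obtain ⟨hgV, hfU⟩ := hgf (π z) hz₀
  obtain ⟨hV1, hU1, hgood, hquart⟩ := hVU (π z) hz₀
  exact net_point (z₀ := π z) (f := f (π z)) (g := g (π z)) (R := R) hStd hEND hU hε hε2 hc0 hη0
    hR0 hK1 rfl hδ1 (by linarith) hx'2 p5 r6 hq1 hq2 a1 a2 a3 a4
    (fun h => by
      obtain ⟨q', hq'1, hq'2⟩ := hquart h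
      exact ⟨q', hq'1 _ hgV, hq'2 _ hfU⟩)
    ((hgood _ (Finset.mem_union_right _ hfU)).2.2 (π z) hz₀)
    ((hgood _ (Finset.mem_union_left _ hgV)).2.2 (π z) hz₀)


/-- the final contradiction with an explicit scale -/
theorem fin_explicit (hDBL : P_DBL) (hRAIL : P_RAIL) (hHEAVY : P_HEAVY) (hGOOD : P_GOOD)
    (hEND : P_END) {c C C' c' : ℝ} (hFl : Fl c C) (hVi : Vi c C' c') :
    ∃ B : ℝ, 1 ≤ B ∧ ∀ ε : ℝ, 0 < ε → ε ≤ 1 / 2 → ∃ L₀ β κ : ℝ, 0 < β ∧ 0 < κ ∧ 1 ≤ L₀ ∧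
      ∀ (α : Type) [Fintype α] [PartialOrder α] (M : ℕ), Std α M → LLNx α M κ → Unb α M ε →
      ∀ R : ℝ, Real.exp (B * Real.log (2 / ε) ^ 3 / ε ^ 4) ≤ R →
      H1 α M c R → ∀ x y₀ : α, |hh M y₀ - hh M x| ≤ R → c * R ≤ tau M x y₀ →
      (∀ z : α, |hh M z - hh M x| ≤ L₀ * R → Rng α M z (L₀ * R) β) → False := by
  obtain ⟨CD, hCD1, hD⟩ := hDBL
  obtain ⟨L₁, hL₁1, hH⟩ := hHEAVY c C C' c' hFl hVi
  obtain ⟨hc0, hc2, hC1, hF⟩ := id hFl
  obtain ⟨hC'1, hc'0, hV⟩ := id hVi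
  obtain ⟨B, hB1, hB⟩ := par_bound (c := c) (C := C) (C' := C') (c' := c') (CD := CD)
    (L₁ := 12 * C * (L₁ + 2) + 2) hc0 hC1 hC'1 hc'0 hCD1
  refine ⟨B, hB1, fun ε hε hε2 => ?_⟩
  obtain ⟨u, F, hu, hF0, hCDu, hcu, hLu, hbd, hP⟩ := hB ε hε hε2
  obtain ⟨η, hη⟩ : ∃ η : ℝ, η = 1 / u ^ 8 := ⟨_, rfl⟩
  obtain ⟨L, hL⟩ : ∃ L : ℝ, L = u ^ 2 := ⟨_, rfl⟩
  obtain ⟨N, hN⟩ : ∃ N : ℝ, N = Real.exp F := ⟨_, rfl⟩
  obtain ⟨K₀, hK₀⟩ : ∃ K₀ : ℝ, K₀ = 18 * Real.log (272 * Real.exp F) := ⟨_, rfl⟩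
  rw [← hη, ← hL, ← hK₀, ← hN] at hP
  rw [← hN] at hbd
  obtain ⟨hη0, hη1, hL1, hLL, hN1, hK1, p1, p2, p3, p4, p5⟩ := hP
  have u0 : 0 < u := by linarith
  have u1 : 1 ≤ u := by linarith
  have hN0 : 0 < N := by linarith
  have hsqη : √η = 1 / u ^ 4 := by
    rw [hη, Real.sqrt_eq_iff_mul_self_eq (by positivity) (by positivity)]
    field_simp
  have hsη : 0 < √η := Real.sqrt_pos.mpr hη0
  obtain ⟨T, hT⟩ : ∃ T : ℝ, T = ((2 * 16 ^ (2 * ⌈N⌉₊) : ℕ) : ℝ) := ⟨_, rfl⟩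
  have hT1 : 1 ≤ T := by
    rw [hT]
    have : 1 ≤ 2 * 16 ^ (2 * ⌈N⌉₊) := by
      have : 1 ≤ 16 ^ (2 * ⌈N⌉₊) := Nat.one_le_pow _ _ (by norm_num)
      omega
    exact_mod_cast this
  have hT0 : 0 < T := by linarith
  -- the size of `T`
  have hTN : 32 * T ≤ Real.exp (18 * N) := by
    have h1 : (⌈N⌉₊ : ℝ) ≤ N + 1 := (Nat.ceil_lt_add_one hN0.le).le
    have h2 : T = 2 * 256 ^ ⌈N⌉₊ := by
      rw [hT, pow_mul]
      push_cast
      norm_num
    have he : (256 : ℝ) ≤ Real.exp 6 := by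
      have h3 : Real.exp 6 = Real.exp 1 ^ 6 := by
        rw [← Real.exp_nat_mul]
        norm_num
      rw [h3]
      have h4 := Real.exp_one_gt_d9
      calc (256 : ℝ) ≤ 2.7 ^ 6 := by norm_num
        _ ≤ Real.exp 1 ^ 6 := pow_le_pow_left₀ (by norm_num) (by linarith) 6
    have h3 : (256 : ℝ) ^ ⌈N⌉₊ ≤ Real.exp (6 * (N + 1)) := by
      calc (256 : ℝ) ^ ⌈N⌉₊ ≤ Real.exp 6 ^ ⌈N⌉₊ := pow_le_pow_left₀ (by norm_num) he _
        _ = Real.exp (⌈N⌉₊ * 6) := by rw [← Real.exp_nat_mul]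
        _ ≤ Real.exp (6 * (N + 1)) := Real.exp_le_exp.mpr (by linarith)
    calc 32 * T = 64 * 256 ^ ⌈N⌉₊ := by rw [h2]; ring
      _ ≤ Real.exp 6 * Real.exp (6 * (N + 1)) := by
          refine mul_le_mul (by linarith) h3 (by positivity) (by positivity)
      _ = Real.exp (6 + 6 * (N + 1)) := by rw [Real.exp_add]
      _ ≤ Real.exp (18 * N) := Real.exp_le_exp.mpr (by linarith)
  refine ⟨2 * L, 1 / (8 * T), 1 / (8 * T), by positivity, by positivity, by linarith, ?_⟩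
  intro α _ _ M hStd hX hU R hR hH1 x y₀ hxy hcR hRng
  have hRu : u ^ 13 * N ^ 3 ≤ R := hbd.trans hR
  have hN3 : 1 ≤ N ^ 3 := one_le_pow₀ hN1
  have hRu' : u ^ 13 ≤ R := (le_mul_of_one_le_right (by positivity) hN3).trans hRu
  have hpow : ∀ k : ℕ, k ≤ 13 → u ^ k ≤ R := fun k hk => (pow_le_pow_right₀ u1 hk).trans hRu'
  have hR0 : 0 < R := lt_of_lt_of_le (by positivity) hRu'
  have huR : u ≤ R := by simpa using hpow 1 (by norm_num)
  have hL₁C : L₁ ≤ 12 * C * (L₁ + 2) + 2 := by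
    have h1 : 1 * (L₁ + 2) ≤ C * (L₁ + 2) := mul_le_mul_of_nonneg_right hC1 (by linarith)
    have h2 : 0 ≤ C * (L₁ + 2) := by positivity
    have h3 : 12 * C * (L₁ + 2) = 12 * (C * (L₁ + 2)) := by ring
    rw [h3]
    linarith
  have hL₁L : L₁ ≤ L := hL₁C.trans hLL
  have hL₁R : L₁ ≤ R := hL₁C.trans (hLu.trans huR)
  have hηR : ∀ b : ℝ, b * u ^ 8 ≤ R → b ≤ η * R := by
    intro b hb
    rw [hη, one_div_mul_eq_div, le_div_iff₀ (by positivity)]
    exact hb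
  have hcR1 : 1 / c ≤ R := by
    have h1 : 1 / c ≤ 2 / c := div_le_div_of_nonneg_right (by norm_num) hc0.le
    linarith
  have hRngx : Rng α M x R (1 / 4) := by
    refine Rng_mono (B' := 2 * L * R) (β := 1 / (8 * T)) ?_ ?_
      (hRng x (by rw [sub_self, abs_zero]; positivity))
    · have : 1 * R ≤ 2 * L * R := mul_le_mul_of_nonneg_right (by linarith) hR0.le
      linarith
    · exact one_div_le_one_div_of_le (by norm_num) (by linarith)
  refine fin_core' (x := x) (y₀ := y₀) (R := R) (κ := 1 / (8 * T)) hFl hVi hRAIL hGOOD hEND hε hε2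
    hL₁1 (hH α M hStd R hcR1 hL₁R hH1 x hRngx)
    (fun Z y η' B h1 h2 h3 h4 => hD α M hStd ε hε hε2 hU Z y η' B h1 h2 h3 h4)
    hη0 hη1 hL1 hLL hN1 hK1 p1 p2 p3 p4 p5 hStd hU hH1 hcR1 (by rw [hL]; exact hpow 2 (by norm_num))
    ?_ ?_ ?_ ?_ ?_ hT hX le_rfl ?_ ?_ hxy hcR hRng
  · refine hηR _ ?_
    calc CD / ε ^ 2 * u ^ 8 ≤ u ^ 3 * u ^ 8 := mul_le_mul_of_nonneg_right hCDu (by positivity)
      _ = u ^ 11 := by ring
      _ ≤ R := hpow 11 (by norm_num)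
  · refine hηR _ ?_
    rw [one_mul]
    exact hpow 8 (by norm_num)
  · rw [hsqη, one_div_mul_eq_div, le_div_iff₀ (by positivity)]
    calc 3000 * u ^ 4 ≤ u * u ^ 4 := mul_le_mul_of_nonneg_right (by linarith) (by positivity)
      _ = u ^ 5 := by ring
      _ ≤ R := hpow 5 (by norm_num)
  · have h1 : 1 / u ^ 2 ≤ √(3 * K₀ * √η) := by
      rw [Real.le_sqrt' (by positivity), hsqη]
      have h2 : (1 / u ^ 2) ^ 2 = 1 / u ^ 4 := by
        rw [div_pow, one_pow]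
        congr 1
        ring
      rw [h2]
      have h3 : 0 < 1 / u ^ 4 := by positivity
      nlinarith
    have h2 : 1 / u ^ 2 * R ≤ √(3 * K₀ * √η) * R := mul_le_mul_of_nonneg_right h1 hR0.le
    have h3 : 1 ≤ 1 / u ^ 2 * R := by
      rw [one_div_mul_eq_div, le_div_iff₀ (by positivity), one_mul]
      exact hpow 2 (by norm_num)
    linarith
  · have h1 : 2 / c ≤ R := by linarith
    rw [div_le_iff₀ hc0] at h1
    linarith
  · -- the law of large numbers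
    have h1 : 18 * N ≤ R / (2 ^ 19 * N ^ 2 * (L + 2)) := by
      rw [le_div_iff₀ (by positivity)]
      have h2 : L + 2 ≤ 3 * u ^ 2 := by
        rw [hL]
        have : 1 ≤ u ^ 2 := one_le_pow₀ u1
        linarith
      have h3 : (18 * 2 ^ 19 * 3 : ℝ) ≤ u ^ 2 := by
        have h4 : (69120 : ℝ) ^ 2 ≤ u ^ 2 := pow_le_pow_left₀ (by norm_num) hu 2
        refine le_trans ?_ h4
        norm_num
      calc 18 * N * (2 ^ 19 * N ^ 2 * (L + 2)) = 18 * 2 ^ 19 * (L + 2) * N ^ 3 := by ring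
        _ ≤ 18 * 2 ^ 19 * (3 * u ^ 2) * N ^ 3 := by gcongr
        _ = (18 * 2 ^ 19 * 3) * (u ^ 2 * N ^ 3) := by ring
        _ ≤ u ^ 2 * (u ^ 2 * N ^ 3) := mul_le_mul_of_nonneg_right h3 (by positivity)
        _ = u ^ 4 * N ^ 3 := by ring
        _ ≤ u ^ 13 * N ^ 3 :=
            mul_le_mul_of_nonneg_right (pow_le_pow_right₀ u1 (by norm_num)) (by positivity)
        _ ≤ R := hRu
    have h2 : Real.exp (-(R / (2 ^ 19 * N ^ 2 * (L + 2)))) ≤ 1 / (32 * T) := by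
      have h3 : Real.exp (-(R / (2 ^ 19 * N ^ 2 * (L + 2)))) ≤ Real.exp (-(18 * N)) :=
        Real.exp_le_exp.mpr (neg_le_neg h1)
      refine h3.trans ?_
      rw [Real.exp_neg, ← one_div]
      exact one_div_le_one_div_of_le (by positivity) hTN
    have h3 : 1 / (8 * T) = 4 * (1 / (32 * T)) := by
      field_simp
      norm_num
    rw [h3]
    linarith
  · calc 256 * N ≤ u * N := mul_le_mul_of_nonneg_right (by linarith) hN0.le
      _ ≤ u ^ 13 * N ^ 3 := by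
          refine mul_le_mul (le_self_pow₀ u1 (by norm_num)) (le_self_pow₀ hN1 (by norm_num))
            hN0.le (by positivity)
      _ ≤ R := hRu

end Pool.Agent.Y352.KSR
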