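import Pool.Agent.H34.L.TH521.KS_GAP
import Pool.Agent.H34.L.TH921.KS_LLN

/-!
# Exponential tails for the gaps of a random subset

The gaps of a uniformly random `n`-subset of `{0, …, M - 1}` are exchangeable; sums of gaps have
exponential tails.
-/

set_option autoImplicit false

open Finset
open scoped Classical

namespace Pool.Agent.Y352.KSR

open Pool.Agent.TH161.KS
open Pool.Agent.TH521.KS_GAP (ev_grow ev_insert sum_split card_ins ev_last)

lemma ev_zero (t : Finset ℕ) (M : ℕ) : ev t M 0 = -1 := by
  unfold ev
  rw [if_pos rfl]

lemma mem_pc {m M : ℕ} {t : Finset ℕ} (ht : t ∈ powersetCard m (range M)) :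
    (∀ x ∈ t, x < M) ∧ t.card = m := by
  obtain ⟨h1, h2⟩ := Finset.mem_powersetCard.mp ht
  exact ⟨fun x hx => Finset.mem_range.mp (h1 hx), h2⟩

/-- moving the last element -/
lemma tele : ∀ (M n i : ℕ) (F : ℤ → ℤ), i ≤ n →
    ∑ t ∈ powersetCard (n + 1) (range M), F (ev t M (n + 1) - ev t M i + 1) +
      ∑ t ∈ powersetCard n (range M), F (ev t M n - ev t M i + 1) =
    ∑ t ∈ powersetCard (n + 1) (range M), F (ev t M (n + 1) - ev t M i) +
      ∑ t ∈ powersetCard n (range M), F (ev t M (n + 1) - ev t M i) := by
  intro M
  induction M with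
  | zero =>
    intro n i F hi
    rw [Finset.range_zero, Finset.powersetCard_eq_empty.mpr (by simp), sum_empty, sum_empty]
    rcases Nat.eq_zero_or_pos n with hn | hn
    · subst hn
      obtain rfl : i = 0 := by omega
      rw [Finset.powersetCard_zero, Finset.sum_singleton, Finset.sum_singleton]
      rw [ev_last ∅ 0 (0 + 1) (by simp), ev_zero]
      norm_num
    · rw [Finset.powersetCard_eq_empty.mpr (by simpa using hn), sum_empty, sum_empty]
  | succ M ih =>
    intro n i F hi
    have h1 := ih n i F hi
    have a1 : ∀ c : ℤ, ∑ t ∈ powersetCard (n + 1) (range (M + 1)),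
        F (ev t (M + 1) (n + 1) - ev t (M + 1) i + c) =
        ∑ t ∈ powersetCard (n + 1) (range M), F (ev t M (n + 1) - ev t M i + c) +
        ∑ t ∈ powersetCard n (range M), F (ev t M (n + 1) - ev t M i + c) := by
      intro c
      rw [sum_split M n (fun t => F (ev t (M + 1) (n + 1) - ev t (M + 1) i + c))]
      congr 1
      · refine sum_congr rfl fun t ht => ?_
        obtain ⟨_, h2⟩ := mem_pc ht
        rw [ev_grow t M (n + 1) (by omega), ev_grow t M i (by omega)]
      · refine sum_congr rfl fun t ht => ?_
        obtain ⟨h3, h2⟩ := mem_pc ht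
        rw [ev_insert t M (n + 1) h3 (by omega), ev_insert t M i h3 (by omega)]
    have a0 := a1 0
    simp only [add_zero] at a0
    rw [a1 1, a0]
    cases n with
    | zero =>
      obtain rfl : i = 0 := by omega
      simp only [Finset.powersetCard_zero, Finset.sum_singleton] at h1 ⊢
      rw [ev_last ∅ M (0 + 1) (by simp)] at h1 ⊢
      rw [ev_last ∅ (M + 1) (0 + 1) (by simp)]
      simp only [ev_zero] at h1 ⊢
      have e1 : ((M + 1 : ℕ) : ℤ) - -1 = (M : ℤ) - -1 + 1 := by push_cast; ring
      rw [e1]
      linarith
    | succ n =>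
      have b1 : ∑ t ∈ powersetCard (n + 1) (range (M + 1)),
          F (ev t (M + 1) (n + 1) - ev t (M + 1) i + 1) =
          ∑ t ∈ powersetCard (n + 1) (range M), F (ev t M (n + 1) - ev t M i + 1) +
          ∑ t ∈ powersetCard n (range M), F ((M : ℤ) - ev t M i + 1) := by
        rw [sum_split M n (fun t => F (ev t (M + 1) (n + 1) - ev t (M + 1) i + 1))]
        congr 1
        · refine sum_congr rfl fun t ht => ?_
          obtain ⟨_, h2⟩ := mem_pc ht
          rw [ev_grow t M (n + 1) (by omega), ev_grow t M i (by omega)]
        · refine sum_congr rfl fun t ht => ?_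
          obtain ⟨h3, h2⟩ := mem_pc ht
          rw [ev_insert t M (n + 1) h3 (by omega), ev_insert t M i h3 (by omega),
            ev_last t M (n + 1) (by omega)]
      have b2 : ∑ t ∈ powersetCard (n + 1) (range (M + 1)),
          F (ev t (M + 1) (n + 1 + 1) - ev t (M + 1) i) =
          ∑ t ∈ powersetCard (n + 1) (range M), F ((M : ℤ) - ev t M i + 1) +
          ∑ t ∈ powersetCard n (range M), F ((M : ℤ) - ev t M i + 1) := by
        rw [sum_split M n (fun t => F (ev t (M + 1) (n + 1 + 1) - ev t (M + 1) i))]
        congr 1
        · refine sum_congr rfl fun t ht => ?_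
          obtain ⟨_, h2⟩ := mem_pc ht
          rw [ev_last t (M + 1) (n + 1 + 1) (by omega), ev_grow t M i (by omega)]
          congr 1
          push_cast
          ring
        · refine sum_congr rfl fun t ht => ?_
          obtain ⟨h3, h2⟩ := mem_pc ht
          rw [ev_last (insert M t) (M + 1) (n + 1 + 1) (by rw [card_ins t M h3]; omega),
            ev_insert t M i h3 (by omega)]
          congr 1
          push_cast
          ring
      have c1 : ∑ t ∈ powersetCard (n + 1) (range M), F (ev t M (n + 1 + 1) - ev t M i + 1) =
          ∑ t ∈ powersetCard (n + 1) (range M), F ((M : ℤ) - ev t M i + 1) := by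
        refine sum_congr rfl fun t ht => ?_
        obtain ⟨_, h2⟩ := mem_pc ht
        rw [ev_last t M (n + 1 + 1) (by omega)]
      rw [b1, b2, c1]
      linarith

/-- the gaps are exchangeable -/
lemma exch : ∀ (M n i j : ℕ) (F : ℤ → ℤ), i ≤ j → j ≤ n →
    ∑ t ∈ powersetCard n (range M), F (ev t M (j + 1) - ev t M (i + 1)) =
    ∑ t ∈ powersetCard n (range M), F (ev t M j - ev t M i) := by
  intro M
  induction M with
  | zero =>
    intro n i j F hij hj
    rcases Nat.eq_zero_or_pos n with hn | hn
    · subst hn
      obtain rfl : i = j := by omega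
      simp
    · rw [Finset.range_zero, Finset.powersetCard_eq_empty.mpr (by simpa using hn), sum_empty,
        sum_empty]
  | succ M ih =>
    intro n i j F hij hj
    cases n with
    | zero =>
      obtain rfl : i = j := by omega
      simp
    | succ n =>
      rcases Nat.lt_or_ge n j with hjn | hjn
      · obtain rfl : j = n + 1 := by omega
        rcases Nat.lt_or_ge n i with hin | hin
        · obtain rfl : i = n + 1 := by omega
          simp
        · have l1 : ∑ t ∈ powersetCard (n + 1) (range (M + 1)),
              F (ev t (M + 1) (n + 1 + 1) - ev t (M + 1) (i + 1)) =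
              ∑ t ∈ powersetCard (n + 1) (range M), F (ev t M (n + 1 + 1) - ev t M (i + 1) + 1) +
              ∑ t ∈ powersetCard n (range M), F (ev t M (n + 1) - ev t M (i + 1) + 1) := by
            rw [sum_split M n (fun t => F (ev t (M + 1) (n + 1 + 1) - ev t (M + 1) (i + 1)))]
            congr 1
            · refine sum_congr rfl fun t ht => ?_
              obtain ⟨_, h2⟩ := mem_pc ht
              rw [ev_last t (M + 1) (n + 1 + 1) (by omega), ev_grow t M (i + 1) (by omega),
                ev_last t M (n + 1 + 1) (by omega)]
              congr 1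
              push_cast
              ring
            · refine sum_congr rfl fun t ht => ?_
              obtain ⟨h3, h2⟩ := mem_pc ht
              rw [ev_last (insert M t) (M + 1) (n + 1 + 1) (by rw [card_ins t M h3]; omega),
                ev_insert t M (i + 1) h3 (by omega), ev_last t M (n + 1) (by omega)]
              congr 1
              push_cast
              ring
          have l2 : ∑ t ∈ powersetCard (n + 1) (range (M + 1)),
              F (ev t (M + 1) (n + 1) - ev t (M + 1) i) =
              ∑ t ∈ powersetCard (n + 1) (range M), F (ev t M (n + 1) - ev t M i) +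
              ∑ t ∈ powersetCard n (range M), F (ev t M (n + 1) - ev t M i) := by
            rw [sum_split M n (fun t => F (ev t (M + 1) (n + 1) - ev t (M + 1) i))]
            congr 1
            · refine sum_congr rfl fun t ht => ?_
              obtain ⟨_, h2⟩ := mem_pc ht
              rw [ev_grow t M (n + 1) (by omega), ev_grow t M i (by omega)]
            · refine sum_congr rfl fun t ht => ?_
              obtain ⟨h3, h2⟩ := mem_pc ht
              rw [ev_insert t M (n + 1) h3 (by omega), ev_insert t M i h3 (by omega)]
          rw [l1, l2, ih (n + 1) i (n + 1) (fun x => F (x + 1)) hij le_rfl,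
            ih n i n (fun x => F (x + 1)) hin le_rfl]
          exact tele M n i F hin
      · have l1 : ∀ a : ℕ, a ≤ 1 → ∑ t ∈ powersetCard (n + 1) (range (M + 1)),
            F (ev t (M + 1) (j + a) - ev t (M + 1) (i + a)) =
            ∑ t ∈ powersetCard (n + 1) (range M), F (ev t M (j + a) - ev t M (i + a)) +
            ∑ t ∈ powersetCard n (range M), F (ev t M (j + a) - ev t M (i + a)) := by
          intro a ha
          rw [sum_split M n (fun t => F (ev t (M + 1) (j + a) - ev t (M + 1) (i + a)))]
          congr 1
          · refine sum_congr rfl fun t ht => ?_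
            obtain ⟨_, h2⟩ := mem_pc ht
            rw [ev_grow t M (j + a) (by omega), ev_grow t M (i + a) (by omega)]
          · refine sum_congr rfl fun t ht => ?_
            obtain ⟨h3, h2⟩ := mem_pc ht
            rw [ev_insert t M (j + a) h3 (by omega), ev_insert t M (i + a) h3 (by omega)]
        have l2 := l1 0 (by norm_num)
        simp only [add_zero] at l2
        rw [l1 1 le_rfl, l2, ih (n + 1) i j F hij (by omega), ih n i j F hij hjn]

/-- a sum of gaps has the law of a sum of initial gaps -/
lemma exch0 (M n : ℕ) (F : ℤ → ℤ) : ∀ (i m : ℕ), m + i ≤ n + 1 →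
    ∑ t ∈ powersetCard n (range M), F (ev t M (m + i) - ev t M i) =
    ∑ t ∈ powersetCard n (range M), F (ev t M m + 1) := by
  intro i
  induction i with
  | zero =>
    intro m _
    refine sum_congr rfl fun t _ => ?_
    rw [ev_zero, add_zero, sub_neg_eq_add]
  | succ i ih =>
    intro m h
    rw [← ih m (by omega), ← exch M n i (m + i) F (by omega) (by omega)]
    rfl

lemma exch_card (M n i m : ℕ) (h : m + i ≤ n + 1) (p : ℤ → Prop) :
    ((powersetCard n (range M)).filter fun t => p (ev t M (m + i) - ev t M i)).card =
    ((powersetCard n (range M)).filter fun t => p (ev t M m + 1)).card := by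
  have h1 := exch0 M n (fun x => if p x then 1 else 0) i m h
  rw [sum_boole, sum_boole] at h1
  exact_mod_cast h1

/-- rising moments -/
lemma rising (r : ℕ) : ∀ (M n m : ℕ), 1 ≤ m → m ≤ n →
    ∑ t ∈ powersetCard n (range M), ((((ev t M m).toNat + r).choose r : ℕ) : ℤ) =
      (((m - 1 + r).choose r * (M + r).choose (n + r) : ℕ) : ℤ) := by
  intro M
  induction M with
  | zero =>
    intro n m h1 h2
    rw [Finset.range_zero, Finset.powersetCard_eq_empty.mpr (by simp; omega), sum_empty,
      Nat.choose_eq_zero_of_lt (by omega : 0 + r < n + r)]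
    simp
  | succ M ih =>
    intro n m h1 h2
    obtain ⟨n, rfl⟩ : ∃ n' : ℕ, n = n' + 1 := ⟨n - 1, by omega⟩
    rw [sum_split M n (fun t => ((((ev t (M + 1) m).toNat + r).choose r : ℕ) : ℤ))]
    have a1 : ∑ t ∈ powersetCard (n + 1) (range M),
        ((((ev t (M + 1) m).toNat + r).choose r : ℕ) : ℤ) =
        (((m - 1 + r).choose r * (M + r).choose (n + 1 + r) : ℕ) : ℤ) := by
      rw [← ih (n + 1) m h1 h2]
      refine sum_congr rfl fun t ht => ?_
      obtain ⟨_, h4⟩ := mem_pc ht
      rw [ev_grow t M m (by omega)]
    rw [a1]
    have e1 : M + 1 + r = (M + r) + 1 := by ring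
    have e2 : n + 1 + r = (n + r) + 1 := by ring
    rw [e1, e2, Nat.choose_succ_succ (M + r) (n + r)]
    rcases Nat.lt_or_ge n m with h3 | h3
    · obtain rfl : m = n + 1 := by omega
      have a2 : ∑ t ∈ powersetCard n (range M),
          ((((ev (insert M t) (M + 1) (n + 1)).toNat + r).choose r : ℕ) : ℤ) =
          ((M.choose n * (M + r).choose r : ℕ) : ℤ) := by
        rw [sum_congr rfl (g := fun _ => (((M + r).choose r : ℕ) : ℤ)) (fun t ht => ?_)]
        · rw [sum_const, card_powersetCard, card_range, nsmul_eq_mul]
          push_cast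
          ring
        · obtain ⟨h3, h4⟩ := mem_pc ht
          rw [ev_insert t M (n + 1) h3 (by omega), ev_last t M (n + 1) (by omega)]
          simp
      rw [a2]
      rcases Nat.lt_or_ge M n with h5 | h5
      · rw [Nat.choose_eq_zero_of_lt h5, Nat.choose_eq_zero_of_lt (by omega : M + r < n + r)]
        push_cast
        ring
      · have h6 := Nat.choose_mul (n := M + r) (k := n + r) (s := r) (by omega)
        rw [Nat.add_sub_cancel, Nat.add_sub_cancel] at h6
        have e3 : n + 1 - 1 + r = n + r := by omega
        rw [e3]
        have h7 : (((M + r).choose (n + r) * (n + r).choose r : ℕ) : ℤ) =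
          (((M + r).choose r * M.choose n : ℕ) : ℤ) := by rw [h6]
        push_cast at h7 ⊢
        linarith
    · have a2 : ∑ t ∈ powersetCard n (range M),
          ((((ev (insert M t) (M + 1) m).toNat + r).choose r : ℕ) : ℤ) =
          (((m - 1 + r).choose r * (M + r).choose (n + r) : ℕ) : ℤ) := by
        rw [← ih n m h1 h3]
        refine sum_congr rfl fun t ht => ?_
        obtain ⟨h5, h4⟩ := mem_pc ht
        rw [ev_insert t M m h5 (by omega)]
      rw [a2]
      push_cast
      ring

end Pool.Agent.Y352.KSR
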