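import Pool.Agent.H34.L.H293R3.BC.Count
import Pool.Agent.H34.L.Y352.KSR.Main

/-!
# The rate for the minimal balance constants of posets of width `w`
-/

set_option autoImplicit false

open Filter Topology

namespace Pool.Agent.Y352.KSR

open Pool.Agent.H293R3.BC Pool.Agent.TH161.LW

/-- a copy of `Fin n` without its order -/
def CC (n : ℕ) : Type := Fin n

instance (n : ℕ) : Fintype (CC n) := inferInstanceAs (Fintype (Fin n))

/-- the order given by a relation -/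
@[reducible] def po {n : ℕ} (r : Fin n → Fin n → Prop) (h : IsPo r) : PartialOrder (CC n) where
  le a b := r a b
  le_refl := h.1
  le_trans := h.2.1
  le_antisymm := h.2.2

lemma eN_card {P : Type} [Fintype P] [PartialOrder P] {n : ℕ} (hn : Fintype.card P = n) :
    eN P = Nat.card {σ : P ≃ Fin n // ∀ a b, a ≤ b → σ a ≤ σ b} := by
  subst hn
  unfold eN
  refine Nat.card_congr (Equiv.subtypeEquivRight fun σ => ?_)
  exact ⟨fun h _ _ hab => h.monotone hab,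
    fun h => Monotone.strictMono_of_injective (fun a b hab => h a b hab) σ.injective⟩

lemma eP_card {P : Type} [Fintype P] [PartialOrder P] {n : ℕ} (hn : Fintype.card P = n)
    (x y : P) : eP P x y =
      Nat.card {σ : P ≃ Fin n // (∀ a b, a ≤ b → σ a ≤ σ b) ∧ σ x < σ y} := by
  subst hn
  unfold eP
  refine Nat.card_congr (Equiv.subtypeEquivRight fun σ => ?_)
  exact ⟨fun h => ⟨fun _ _ hab => h.1.monotone hab, h.2⟩,
    fun h => ⟨Monotone.strictMono_of_injective (fun a b hab => h.1 a b hab) σ.injective, h.2⟩⟩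

lemma eP_zero {P : Type} [Fintype P] [PartialOrder P] {x y : P} (h : x ≤ y) : eP P y x = 0 := by
  unfold eP
  rw [Nat.card_eq_zero]
  left
  constructor
  rintro ⟨σ, h1, h2⟩
  exact absurd (h1.monotone h) (not_le.mpr h2)

/-- the rate for relations on `Fin n` -/
theorem big : ∃ B : ℝ, 1 ≤ B ∧ ∀ ε : ℝ, 0 < ε → ε < 1 / 2 → ∀ (n : ℕ)
    (r : Fin n → Fin n → Prop), IsPo r → (∃ s : Finset (Fin n),
      Real.exp (B * Real.log (2 / ε) ^ 3 / ε ^ 4) ≤ s.card ∧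
      ∀ a ∈ s, ∀ b ∈ s, a ≠ b → ¬ r a b) →
    ∃ x y : Fin n, ¬ r x y ∧ ¬ r y x ∧ 1 / 2 - ε ≤ min
      ((Nat.card {σ : Equiv.Perm (Fin n) //
          (∀ a b, r a b → σ a ≤ σ b) ∧ σ x < σ y} : ℝ) /
        (Nat.card {σ : Equiv.Perm (Fin n) // ∀ a b, r a b → σ a ≤ σ b} : ℝ))
      ((Nat.card {σ : Equiv.Perm (Fin n) //
          (∀ a b, r a b → σ a ≤ σ b) ∧ σ y < σ x} : ℝ) /
        (Nat.card {σ : Equiv.Perm (Fin n) // ∀ a b, r a b → σ a ≤ σ b} : ℝ)) := by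
  obtain ⟨B, hB, hW⟩ := kahn_saks_rate
  refine ⟨B, hB, fun ε hε hε2 n r hr ⟨s, hsW, hs⟩ => ?_⟩
  let _ : PartialOrder (CC n) := po r hr
  have hcard : Fintype.card (CC n) = n := Fintype.card_fin n
  obtain ⟨x, y, -, h1, h2⟩ := hW ε hε hε2.le (CC n) (s : Finset (CC n))
    (fun a ha b hb hab => hs a ha b hb hab) hsW
  have he : (0 : ℝ) < eN (CC n) := by exact_mod_cast Pool.Agent.TH161.KS.eN_pos (CC n)
  have hpos : (0 : ℝ) < (1 / 2 - ε) * eN (CC n) := mul_pos (by linarith) he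
  refine ⟨x, y, ?_, ?_, ?_⟩
  · intro h
    have h3 : eP (CC n) y x = 0 := eP_zero (x := x) (y := y) h
    rw [h3, Nat.cast_zero] at h2
    linarith
  · intro h
    have h3 : eP (CC n) x y = 0 := eP_zero (x := y) (y := x) h
    rw [h3, Nat.cast_zero] at h1
    linarith
  · have e1 := eN_card hcard
    have e2 := eP_card hcard x y
    have e3 := eP_card hcard y x
    have e1' : eN (CC n) = Nat.card {σ : Equiv.Perm (Fin n) // ∀ a b, r a b → σ a ≤ σ b} := e1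
    have e2' : eP (CC n) x y = Nat.card {σ : Equiv.Perm (Fin n) //
      (∀ a b, r a b → σ a ≤ σ b) ∧ σ x < σ y} := e2
    have e3' : eP (CC n) y x = Nat.card {σ : Equiv.Perm (Fin n) //
      (∀ a b, r a b → σ a ≤ σ b) ∧ σ y < σ x} := e3
    rw [← e1', ← e2', ← e3']
    refine le_min ?_ ?_
    · rw [le_div_iff₀ he]; exact h1
    · rw [le_div_iff₀ he]; exact h2

/-- the defining property of the numbers `δ_w` -/
def IsDelta (δ : ℕ → ℝ) : Prop :=
  ∀ w : ℕ, δ w = sInf {d : ℝ | ∃ (n : ℕ) (r : Fin n → Fin n → Prop),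
    (∀ a, r a a) ∧ (∀ a b c, r a b → r b c → r a c) ∧
    (∀ a b, r a b → r b a → a = b) ∧
    (∃ s : Finset (Fin n), s.card = w ∧ ∀ a ∈ s, ∀ b ∈ s, a ≠ b → ¬ r a b) ∧
    (∀ s : Finset (Fin n), (∀ a ∈ s, ∀ b ∈ s, a ≠ b → ¬ r a b) → s.card ≤ w) ∧
    d = sSup {t : ℝ | ∃ x y : Fin n, ¬ r x y ∧ ¬ r y x ∧
      t = min
        ((Nat.card {σ : Equiv.Perm (Fin n) //
            (∀ a b, r a b → σ a ≤ σ b) ∧ σ x < σ y} : ℝ) /
          (Nat.card {σ : Equiv.Perm (Fin n) // ∀ a b, r a b → σ a ≤ σ b} : ℝ))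
        ((Nat.card {σ : Equiv.Perm (Fin n) //
            (∀ a b, r a b → σ a ≤ σ b) ∧ σ y < σ x} : ℝ) /
          (Nat.card {σ : Equiv.Perm (Fin n) // ∀ a b, r a b → σ a ≤ σ b} : ℝ))}}

lemma delta_nonneg {δ : ℕ → ℝ} (hδ : IsDelta δ) (w : ℕ) : 0 ≤ δ w := by
  rw [hδ w]
  apply Real.sInf_nonneg
  rintro d ⟨m, q, -, -, -, -, -, rfl⟩
  apply Real.sSup_nonneg
  rintro t ⟨x, y, -, -, rfl⟩
  exact le_min (by positivity) (by positivity)

lemma delta_le {δ : ℕ → ℝ} (hδ : IsDelta δ) (w : ℕ) (hw : 1 ≤ w) :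
    δ w ≤ 1 / 2 - 1 / (12 * (w : ℝ) - 8) := by
  obtain ⟨n, r, -, -, h⟩ := exists_poset w hw
  have hb : (0 : ℝ) ≤ 1 / 2 - 1 / (12 * (w : ℝ) - 8) := by
    have hw1 : (1 : ℝ) ≤ w := by exact_mod_cast hw
    have : 1 / (12 * (w : ℝ) - 8) ≤ 1 / 4 := by
      apply one_div_le_one_div_of_le (by norm_num)
      linarith
    linarith
  rw [hδ w]
  refine csInf_le_of_le ⟨0, ?_⟩ ⟨n, r, h.po.1, h.po.2.1, h.po.2.2, h.wid, h.wid_le, rfl⟩ ?_
  · rintro d ⟨m, q, -, -, -, -, -, rfl⟩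
    apply Real.sSup_nonneg
    rintro t ⟨x, y, -, -, rfl⟩
    exact le_min (by positivity) (by positivity)
  · apply Real.sSup_le _ hb
    rintro t ⟨x, y, hxy, hyx, rfl⟩
    rw [card_E, card_A, card_A]
    exact h.bal x y hxy hyx

/-- the rate -/
theorem rate : ∃ B : ℝ, 1 ≤ B ∧ ∀ δ : ℕ → ℝ, IsDelta δ → ∀ (ε : ℝ) (w : ℕ), 0 < ε → ε ≤ 1 / 2 →
    Real.exp (B * Real.log (2 / ε) ^ 3 / ε ^ 4) ≤ w → 1 / 2 - ε ≤ δ w := by
  obtain ⟨B, hB, hW⟩ := big
  refine ⟨B, hB, fun δ hδ ε w hε hε2 hw => ?_⟩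
  rcases hε2.lt_or_eq with hε3 | rfl
  · have hw1 : 1 ≤ w := by
      have h1 : (0 : ℝ) < w := lt_of_lt_of_le (Real.exp_pos _) hw
      exact_mod_cast h1
    obtain ⟨n₀, r₀, -, -, h₀⟩ := exists_poset w hw1
    rw [hδ w]
    refine le_csInf ⟨_, n₀, r₀, h₀.po.1, h₀.po.2.1, h₀.po.2.2, h₀.wid, h₀.wid_le, rfl⟩ ?_
    rintro d ⟨n, r, h1, h2, h3, ⟨s, hs1, hs2⟩, -, rfl⟩
    obtain ⟨x, y, hx, hy, hxy⟩ := hW ε hε hε3 n r ⟨h1, h2, h3⟩ ⟨s, by rw [hs1]; exact hw, hs2⟩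
    refine hxy.trans (le_csSup ?_ ⟨x, y, hx, hy, rfl⟩)
    refine ⟨1, ?_⟩
    rintro t ⟨u, v, -, -, rfl⟩
    refine (min_le_left _ _).trans (div_le_one_of_le₀ ?_ (by positivity))
    have h5 : Nat.card {σ : Equiv.Perm (Fin n) // (∀ a b, r a b → σ a ≤ σ b) ∧ σ u < σ v} ≤
        Nat.card {σ : Equiv.Perm (Fin n) // ∀ a b, r a b → σ a ≤ σ b} :=
      Nat.card_le_card_of_injective (fun σ => ⟨σ.1, σ.2.1⟩) (fun a b h => by
        rw [Subtype.mk.injEq] at h
        exact Subtype.ext h)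
    exact_mod_cast h5
  · rw [sub_self]
    exact delta_nonneg hδ w

/-- the theorem -/
theorem main : ∃ C : ℝ, 0 < C ∧ ∀ δ : ℕ → ℝ, IsDelta δ →
    (∀ (ε : ℝ) (w : ℕ), 0 < ε → ε ≤ 1 / 2 →
      Real.exp (C * Real.log (2 / ε) ^ 3 / ε ^ 4) ≤ w → 1 / 2 - ε ≤ δ w) ∧
    (∀ w : ℕ, 16 ≤ w → 1 / 2 - C * Real.log (Real.log w) ^ (3 / 4 : ℝ) / Real.log w ^ (1 / 4 : ℝ) ≤
      δ w) ∧
    (∀ w v : ℕ, 1 ≤ w → Real.exp (C * w ^ 4 * Real.log (w + 1) ^ 3) ≤ v → δ w < δ v) ∧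
    (∀ w : ℕ, 1 ≤ w → ∃ u : ℕ, w ≤ u ∧ (u : ℝ) ≤ Real.exp (C * w ^ 4 * Real.log (w + 1) ^ 3) ∧
      δ u < δ (u + 1)) := by
  obtain ⟨B, hB, hR⟩ := rate
  have hB0 : 0 < B := by linarith
  refine ⟨2592000 * B, by linarith, fun δ hδ => ?_⟩
  have hBB : B ≤ 2592000 * B := by linarith
  have r1 : ∀ (ε : ℝ) (w : ℕ), 0 < ε → ε ≤ 1 / 2 →
      Real.exp (2592000 * B * Real.log (2 / ε) ^ 3 / ε ^ 4) ≤ w → 1 / 2 - ε ≤ δ w := by
    intro ε w hε hε2 hw
    refine hR δ hδ ε w hε hε2 ((Real.exp_le_exp.mpr ?_).trans hw)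
    have h1 := log_two_div_ge hε hε2
    gcongr
  have r3 : ∀ w v : ℕ, 1 ≤ w →
      Real.exp (2592000 * B * w ^ 4 * Real.log (w + 1) ^ 3) ≤ v → δ w < δ v := by
    intro w v hw hv
    have hw1 : (1 : ℝ) ≤ w := by exact_mod_cast hw
    have hw0 : (0 : ℝ) < w := by linarith
    have h1 := delta_le hδ w hw
    have h2 : 1 / 2 - 1 / (12 * (w : ℝ)) ≤ δ v := by
      refine hR δ hδ _ v (by positivity) ?_ ((Real.exp_le_exp.mpr ?_).trans hv)
      · exact one_div_le_one_div_of_le (by norm_num) (by linarith)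
      · have h3 : (2 : ℝ) / (1 / (12 * (w : ℝ))) = 24 * w := by field_simp; norm_num
        have h4 : Real.log (24 * w) ≤ 5 * Real.log (w + 1) := by
          rw [← Real.log_rpow (by positivity)]
          refine Real.log_le_log (by positivity) ?_
          have h5 : ((w : ℝ) + 1) ^ (5 : ℝ) = ((w : ℝ) + 1) ^ 5 := by norm_cast
          rw [h5]
          have h6 : (2 : ℝ) ^ 4 ≤ ((w : ℝ) + 1) ^ 4 := pow_le_pow_left₀ (by norm_num) (by linarith) 4
          have h7 : ((w : ℝ) + 1) ^ 5 = ((w : ℝ) + 1) ^ 4 * (w + 1) := by ring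
          have h8 : 24 * (w : ℝ) ≤ 3 / 2 * w * 16 := by linarith
          rcases Nat.lt_or_ge 1 w with h9 | h9
          · have h10 : (2 : ℝ) ≤ w := by exact_mod_cast h9
            have h11 : (3 : ℝ) ^ 4 ≤ ((w : ℝ) + 1) ^ 4 :=
              pow_le_pow_left₀ (by norm_num) (by linarith) 4
            rw [h7]
            nlinarith
          · have h10 : w = 1 := by omega
            subst h10
            norm_num
        have h5 : 0 ≤ Real.log (24 * w) := Real.log_nonneg (by linarith)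
        rw [h3]
        calc B * Real.log (24 * w) ^ 3 / (1 / (12 * (w : ℝ))) ^ 4
            = 20736 * B * w ^ 4 * Real.log (24 * w) ^ 3 := by
              field_simp
              norm_num
          _ ≤ 20736 * B * w ^ 4 * (5 * Real.log (w + 1)) ^ 3 := by gcongr
          _ = 2592000 * B * w ^ 4 * Real.log (w + 1) ^ 3 := by ring
    have h3 : 1 / (12 * (w : ℝ)) < 1 / (12 * (w : ℝ) - 8) :=
      one_div_lt_one_div_of_lt (by linarith) (by linarith)
    linarith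
  refine ⟨r1, ?_, r3, ?_⟩
  · intro w hw
    obtain ⟨ℒ, hℒ⟩ : ∃ ℒ : ℝ, ℒ = Real.log w := ⟨_, rfl⟩
    have hw16 : (16 : ℝ) ≤ w := by exact_mod_cast hw
    have hw0 : (0 : ℝ) < w := by linarith
    have hℒ1 : 2.7 ≤ ℒ - 0.05 := by
      have h1 : Real.log 16 ≤ Real.log w := Real.log_le_log (by norm_num) hw16
      have h2 : Real.log 16 = 4 * Real.log 2 := by
        have : (16 : ℝ) = 2 ^ 4 := by norm_num
        rw [this, Real.log_pow]
        norm_num
      have := Real.log_two_gt_d9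
      rw [hℒ]
      linarith
    have hℒ0 : 0 < ℒ := by linarith
    rw [← hℒ]
    obtain ⟨lam, hlam⟩ : ∃ lam : ℝ, lam = Real.log ℒ := ⟨_, rfl⟩
    have hlam1 : 1 ≤ lam := by
      rw [hlam, Real.le_log_iff_exp_le hℒ0]
      have := Real.exp_one_lt_d9
      linarith
    have hlam0 : 0 < lam := by linarith
    rw [← hlam]
    obtain ⟨D, hD⟩ : ∃ D : ℝ, D = 2592000 * B := ⟨_, rfl⟩
    rw [← hD]
    have hD2 : 2 ≤ D := by linarith
    have hD0 : 0 < D := by linarith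
    have hDB : B ≤ D ^ 4 := by
      have h1 : D ≤ D ^ 4 := le_self_pow₀ (by linarith) (by norm_num)
      linarith
    obtain ⟨ε, hε⟩ : ∃ ε : ℝ, ε = D * lam ^ (3 / 4 : ℝ) / ℒ ^ (1 / 4 : ℝ) := ⟨_, rfl⟩
    rw [← hε]
    have hp1 : 0 < lam ^ (3 / 4 : ℝ) := Real.rpow_pos_of_pos hlam0 _
    have hp2 : 0 < ℒ ^ (1 / 4 : ℝ) := Real.rpow_pos_of_pos hℒ0 _
    have hε0 : 0 < ε := by rw [hε]; positivity
    rcases le_or_gt ε (1 / 2) with hε2 | hε2
    · refine hR δ hδ ε w hε0 hε2 ?_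
      rw [← Real.le_log_iff_exp_le hw0, ← hℒ]
      have h1 : Real.log (2 / ε) ≤ lam := by
        rw [hlam]
        refine Real.log_le_log (by positivity) ?_
        rw [div_le_iff₀ hε0, hε, mul_div_assoc', le_div_iff₀ hp2]
        have h2 : ℒ ^ (1 / 4 : ℝ) ≤ ℒ := by
          have h3 := Real.rpow_le_rpow_of_exponent_le (show (1 : ℝ) ≤ ℒ by linarith)
            (show (1 / 4 : ℝ) ≤ 1 by norm_num)
          rwa [Real.rpow_one] at h3
        have h3 : 1 ≤ lam ^ (3 / 4 : ℝ) := Real.one_le_rpow hlam1 (by norm_num)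
        calc 2 * ℒ ^ (1 / 4 : ℝ) ≤ 2 * ℒ := by linarith
          _ ≤ ℒ * (D * 1) := by nlinarith
          _ ≤ ℒ * (D * lam ^ (3 / 4 : ℝ)) := by gcongr
      have h2 : 0 ≤ Real.log (2 / ε) := by
        have := log_two_div_ge hε0 hε2
        linarith
      have h3 : ε ^ 4 = D ^ 4 * lam ^ 3 / ℒ := by
        rw [hε, div_pow, mul_pow]
        have e1 : (lam ^ (3 / 4 : ℝ)) ^ 4 = lam ^ 3 := by
          rw [← Real.rpow_natCast, ← Real.rpow_mul hlam0.le, ← Real.rpow_natCast]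
          norm_num
        have e2 : (ℒ ^ (1 / 4 : ℝ)) ^ 4 = ℒ := by
          rw [← Real.rpow_natCast, ← Real.rpow_mul hℒ0.le]
          norm_num
        rw [e1, e2]
      rw [h3, div_le_iff₀ (by positivity)]
      calc B * Real.log (2 / ε) ^ 3 ≤ D ^ 4 * lam ^ 3 := by gcongr
        _ = ℒ * (D ^ 4 * lam ^ 3 / ℒ) := by field_simp
    · have := delta_nonneg hδ w
      linarith
  · intro w hw
    by_contra hcon
    push Not at hcon
    obtain ⟨X, hX⟩ : ∃ X : ℝ, X = Real.exp (2592000 * B * w ^ 4 * Real.log (w + 1) ^ 3) := ⟨_, rfl⟩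
    rw [← hX] at hcon
    have hXw : (w : ℝ) ≤ X := by
      have hw1 : (1 : ℝ) ≤ w := by exact_mod_cast hw
      have h0 : 0 ≤ Real.log ((w : ℝ) + 1) := Real.log_nonneg (by linarith)
      have h1 : Real.log 2 ≤ Real.log ((w : ℝ) + 1) := Real.log_le_log (by norm_num) (by linarith)
      have h2 := Real.log_two_gt_d9
      have h3 : (w : ℝ) ≤ 2592000 * B * w ^ 4 * Real.log (w + 1) ^ 3 := by
        have h4 : (0.6 : ℝ) ^ 3 ≤ Real.log ((w : ℝ) + 1) ^ 3 :=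
          pow_le_pow_left₀ (by norm_num) (by linarith) 3
        have h5 : (w : ℝ) ≤ w ^ 4 := le_self_pow₀ hw1 (by norm_num)
        calc (w : ℝ) = 1 * w * 1 := by ring
          _ ≤ (100 * B) * w ^ 4 * (25920 * (0.6 : ℝ) ^ 3) := by
              gcongr
              · linarith
              · norm_num
          _ ≤ (100 * B) * w ^ 4 * (25920 * Real.log ((w : ℝ) + 1) ^ 3) := by gcongr
          _ = _ := by ring
      rw [hX]
      have h4 := Real.add_one_le_exp (2592000 * B * w ^ 4 * Real.log ((w : ℝ) + 1) ^ 3)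
      linarith
    -- `δ` does not increase up to `⌊X⌋ + 1`
    have h1 : ∀ k : ℕ, ((w + k : ℕ) : ℝ) ≤ X + 1 → δ (w + k) ≤ δ w := by
      intro k
      induction k with
      | zero => intro _; exact le_rfl
      | succ k ih =>
        intro hk
        have h2 : ((w + k : ℕ) : ℝ) ≤ X := by
          push_cast at hk ⊢
          linarith
        exact (hcon (w + k) (by omega) h2).trans (ih (by linarith))
    obtain ⟨v, hv⟩ : ∃ v : ℕ, v = ⌈X⌉₊ := ⟨_, rfl⟩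
    have hv1 : X ≤ v := by rw [hv]; exact Nat.le_ceil _
    have hX0 : 0 ≤ X := by rw [hX]; positivity
    have hv2 : (v : ℝ) ≤ X + 1 := by rw [hv]; exact (Nat.ceil_lt_add_one hX0).le
    have hwv : w ≤ v := by
      have : (w : ℝ) ≤ v := hXw.trans hv1
      exact_mod_cast this
    have h2 := r3 w v hw (by rw [← hX]; exact hv1)
    have h3 := h1 (v - w) (by rw [Nat.add_sub_cancel' hwv]; exact hv2)
    rw [Nat.add_sub_cancel' hwv] at h3
    linarith

end Pool.Agent.Y352.KSR
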